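import Mathlib
import Pool.Agent.V5helper2.CF.Ctl

set_option autoImplicit false
open Finset Filter Topology MeasureTheory AddCircle
open scoped ComplexConjugate

namespace Pool.Agent.V5helper2.NR

open Pool.Agent.Helper498.NCR Pool.Agent.V5helper2.CF

noncomputable section

/-- `z` is absent from the sequence `a`: the local Fourier averages of `a` at `z` over windows
of length `H` tend to zero in quadratic mean as `H → ∞`. -/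
def Absent (z : ℂ) (a : ℕ → ℂ) : Prop :=
  ∀ ε > (0 : ℝ), ∃ H₀ : ℕ, ∀ H ≥ H₀, ∃ N₀ : ℕ, ∀ N ≥ N₀,
    (N : ℝ)⁻¹ * ∑ n ∈ range N, ‖(H : ℂ)⁻¹ * ∑ h ∈ range H, z ^ h * a (n + h)‖ ^ 2 ≤ ε

/-- weak version along a sequence of lengths -/
def AbsentAlong (z : ℂ) (a : ℕ → ℂ) (M : ℕ → ℕ) : Prop :=
  ∀ ε > (0 : ℝ), ∃ H : ℕ, 1 ≤ H ∧ ∀ᶠ i in atTop,
    ((M i : ℕ) : ℝ)⁻¹ * ∑ n ∈ range (M i),
      ‖(H : ℂ)⁻¹ * ∑ h ∈ range H, z ^ h * a (n + h)‖ ^ 2 ≤ ε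

/-- the correlations of `a` along `M` are `γ` -/
def Corr (a : ℕ → ℂ) (M : ℕ → ℕ) (γ : ℕ → ℂ) : Prop :=
  ∀ k, Tendsto (fun i => ((M i : ℕ) : ℂ)⁻¹ * ∑ j ∈ range (M i), a (j + k) * conj (a j))
    atTop (𝓝 (γ k))

/-- the measure `ρ` represents `γ`; here `Ci = AddCircle (1:ℝ)` and `Gam γ n m` is `γ (n-m)` for
`m ≤ n` and `conj (γ (m-n))` otherwise (both in `V5helper2/CF/Det.lean`) -/
def Rep (ρ : Measure Ci) (γ : ℕ → ℂ) : Prop :=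
  ∀ n m : ℕ, conj (Gam γ n m) = ∫ t, fourier ((m : ℤ) - n) t ∂ρ

/-- job RHO (helper2) -/
def S_RHO : Prop := ∀ (a : ℕ → ℂ), (∀ n, ‖a n‖ ≤ 1) → ∀ (γ : ℕ → ℂ) (M : ℕ → ℕ),
  Tendsto M atTop atTop → Corr a M γ → ∃ ρ : Measure Ci, IsFiniteMeasure ρ ∧ Rep ρ γ

/-- job ATM.  Proof: for fixed `H`, `((M i))⁻¹ * ∑_{n<M i} ‖(H)⁻¹ ∑_{h<H} z^h a(n+h)‖²` equals
`(H²)⁻¹ ∑_{h,h'} z^h conj(z)^{h'} (M i)⁻¹ ∑_n a(n+h) conj(a(n+h'))`, which tends to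
`(H²)⁻¹ ∑ z^h conj(z^{h'}) Gam γ h h'` (shift the sum over `n` by `min h h'`: the change is at most
`2 min(h,h') / M i`; cf. `shift_one` in `Helper498/NCR/VdC.lean`), which is
`∫ ‖(H)⁻¹ ∑_{h<H} z^h fourier h s‖² ∂ρ(s) ≥ ρ {t}` as for `s = t` each term `z^h * fourier h t` is 1
(`z = fourier (-1) t`).  So `ρ {t} ≤ ε` for every `ε > 0`. -/
def S_ATM : Prop := ∀ (a : ℕ → ℂ), (∀ n, ‖a n‖ ≤ 1) → ∀ (γ : ℕ → ℂ) (M : ℕ → ℕ),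
  Tendsto M atTop atTop → Corr a M γ → ∀ ρ : Measure Ci, IsFiniteMeasure ρ → Rep ρ γ →
  ∀ t : Ci, AbsentAlong (fourier (-1) t) a M → ρ {t} = 0

/-- job PMS.  Proof: `(H²)⁻¹ ∑_{h,h'} Gam γ h h' * conj (Gam δ h h') = ∫ φ_H(s) ∂σ(s)` with
`φ_H(s) = (H²)⁻¹ ∑_{h,h'} (∫ fourier (h-h') t ∂ρ(t)) * fourier (h'-h) s = ∫ ‖(H)⁻¹ ∑_{h<H} fourier h (t-s)‖² ∂ρ(t)`;
`|φ_H| ≤ ρ(univ)`, `φ_H(s) → ρ{s}` (dominated convergence, the averages tend to 1 for `t=s`, else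
to 0: geometric sum, cf. `char_avg` in `Helper498/NCR/Weights.lean`); so the limit is
`∫ ρ{s} ∂σ(s) = 0`, as `{s | ρ{s} ≠ 0}` is countable and each of its points has `σ`-measure 0. -/
def S_PMS : Prop := ∀ ρ σ : Measure Ci, IsFiniteMeasure ρ → IsFiniteMeasure σ →
  ∀ γ δ : ℕ → ℂ, Rep ρ γ → Rep σ δ → (∀ t, ρ {t} = 0 ∨ σ {t} = 0) →
  Tendsto (fun H : ℕ => ((H : ℂ) ^ 2)⁻¹ * ∑ h ∈ range H, ∑ h' ∈ range H,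
    Gam γ h h' * conj (Gam δ h h')) atTop (𝓝 0)

/-- job CMP: compact functions have only countably many frequencies.  Proof: copy of `freq_sub` in
`V5helper2/CF/Loc.lean` (same `Λ` without the set of the hypothesis, same `K`): with
`a(T^n x) = ∑_i l_i^n e_i(x) + r_j(T^n x)` and `‖w‖² ≤ ‖w‖` for `‖w‖ ≤ 1` the left side is at most
`∑_i ‖(H)⁻¹ ∑_h (z l_i)^h‖ ‖e_i x‖ + (N i)⁻¹ ∑_{n<N i} (H)⁻¹ ∑_{h<H} ‖r_j(T^{n+h} x)‖`, the second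
part is at most `(N i)⁻¹ ∑_{n<N i} ‖r_j(T^n x)‖ + H * C / N i` with
`C = 1 + ∑_i ‖e_i x‖ ≥ ‖r_j(T^n x)‖` (all `n`), and it has limit `‖p_j x‖`, small for large `j`. -/
def S_CMP : Prop := ∀ (Ω : Type) [MeasurableSpace Ω] (μ : Measure Ω) [IsProbabilityMeasure μ]
  (T : Ω → Ω) (hT : MeasurePreserving T μ μ) (a : Ω → ℂ) (ha : Measurable a)
  (ha1 : ∀ x, ‖a x‖ ≤ 1), (memLp_bdd (μ := μ) ha ha1).toLp a ∈ Ec (koop hT) →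
  ∃ Λ : Set ℂ, Λ.Countable ∧ ∃ K : ℕ → ℕ → Lp ℂ 2 μ, (∀ k, Tendsto (K k) atTop (𝓝 0)) ∧
    ∀ᵐ x ∂μ, ∀ N : ℕ → ℕ, Tendsto N atTop atTop →
      (∀ k, Tendsto (fun i => K k (N i) x) atTop (𝓝 0)) → ∀ z : ℂ, ‖z‖ = 1 → z ∉ Λ →
      ∀ ε > (0 : ℝ), ∃ H₀ : ℕ, ∀ H ≥ H₀, ∀ᶠ i in atTop,
        ((N i : ℕ) : ℝ)⁻¹ * ∑ n ∈ range (N i),
          ‖(H : ℂ)⁻¹ * ∑ h ∈ range H, z ^ h * a (T^[n + h] x)‖ ^ 2 ≤ ε

/-- job ORT.  Proof: `q_H(x) = ‖(H)⁻¹ ∑_{h<H} z^h g(T^h x)‖²` has values in `[0,1]` and integral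
`‖tavg (koop hT) z H g‖² → 0` (`tavg_tendsto_zero`, `avg_coe`); so `‖q_H‖_{L²} ≤ (∫ q_H)^{1/2} → 0`.
Choose `H_k ≥ 1` with `‖q_{H_k}‖_{L²} ≤ (1/2)^k`, `P_k = lim_N tavg (koop hT) 1 N q_{H_k}` (`mean_erg`,
`tavg_one`), `K k N = tavg (koop hT) 1 N q_{H_k} - P_k`; `‖P_k‖ ≤ (1/2)^k` (`norm_tavg_le`), so
`P_k x → 0` a.e. (`ae_tendsto_zero_of_small`) and `(N i)⁻¹ ∑_{n<N i} q_{H_k}(T^n x) → P_k x`
(`avg_coe`).  Everything named is in `V5helper2/CF/{Main,Loc,Sub}.lean`, see `freq_sub`. -/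
def S_ORT : Prop := ∀ (Ω : Type) [MeasurableSpace Ω] (μ : Measure Ω) [IsProbabilityMeasure μ]
  (T : Ω → Ω) (hT : MeasurePreserving T μ μ) (g : Ω → ℂ) (hg : Measurable g)
  (hg1 : ∀ x, ‖g x‖ ≤ 1), (memLp_bdd (μ := μ) hg hg1).toLp g ∈ (EigSpan (koop hT))ᗮ →
  ∀ z : ℂ, ‖z‖ = 1 →
  ∃ K : ℕ → ℕ → Lp ℂ 2 μ, (∀ k, Tendsto (K k) atTop (𝓝 0)) ∧
    ∀ᵐ x ∂μ, ∀ N : ℕ → ℕ, Tendsto N atTop atTop →
      (∀ k, Tendsto (fun i => K k (N i) x) atTop (𝓝 0)) →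
      AbsentAlong z (fun n => g (T^[n] x)) N

/-- job DET: van der Corput inequality.  Proof: `avg_shift` (in `Helper498/NCR/VdC.lean`) with
`α j = j`, `β j = J - j` replaces `a(m) v(m+n) c(m+2n)` by
`v(m+n+J) * (J)⁻¹ ∑_{j<J} a(m+j) c(m+2n+(2J-j))` with error `2J/N`; Cauchy–Schwarz (`sq_avg_le`,
`norm_bavg_le`); then `(m,n) ↦ (m,m+2n)` is injective into `[0,3N)²` and the terms are
nonnegative, so `(N²)⁻¹ ∑_{m,n<N} ‖..‖² ≤ (N²)⁻¹ ∑_{k<3N} ∑_{l<3N} ‖(J)⁻¹ ∑_j a(k+j) c(l+(2J-j))‖²`;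
expand the square and interchange the sums; `(x+y)² ≤ 2x²+2y²`. -/
def S_DET : Prop := ∀ (a v c : ℕ → ℂ), (∀ n, ‖a n‖ ≤ 1) → (∀ n, ‖v n‖ ≤ 1) → (∀ n, ‖c n‖ ≤ 1) →
  ∀ J N : ℕ, 1 ≤ J → 1 ≤ N →
  ‖bavg N (fun m n => a m * v (m + n) * c (m + 2 * n))‖ ^ 2 ≤ 2 * (2 * J / N) ^ 2 +
    2 * ‖((J : ℂ) ^ 2)⁻¹ * ∑ j ∈ range J, ∑ j' ∈ range J,
      ((N : ℂ)⁻¹ * ∑ k ∈ range (3 * N), a (k + j) * conj (a (k + j'))) *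
      ((N : ℂ)⁻¹ * ∑ l ∈ range (3 * N), c (l + (2 * J - j)) * conj (c (l + (2 * J - j'))))‖

/-- job DTM: deterministic theorem from the above.  Proof: fix `J`; as `i → ∞` the two factors
(with `N = N i`, `3 * N i` along which the correlations converge) tend to `3 * Gam γ j j'` and
`3 * Gam δ (2J-j) (2J-j') = 3 * conj (Gam δ j j')` (shift as in ATM), so
`limsup ‖bavg‖² ≤ 18 ‖(J²)⁻¹ ∑∑ Gam γ j j' * conj (Gam δ j j')‖`, and this tends to 0 as `J → ∞` by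
`S_RHO`, `S_ATM`, `S_PMS` (each `z` of norm one is `fourier (-1) t`). -/
def S_DTM : Prop := ∀ (a v c : ℕ → ℂ), (∀ n, ‖a n‖ ≤ 1) → (∀ n, ‖v n‖ ≤ 1) → (∀ n, ‖c n‖ ≤ 1) →
  ∀ (γ δ : ℕ → ℂ) (N : ℕ → ℕ), Tendsto N atTop atTop →
  Corr a (fun i => 3 * N i) γ → Corr c (fun i => 3 * N i) δ →
  (∀ z : ℂ, ‖z‖ = 1 → AbsentAlong z a (fun i => 3 * N i) ∨ AbsentAlong z c (fun i => 3 * N i)) →
  Tendsto (fun i => bavg (N i) (fun m n => a m * v (m + n) * c (m + 2 * n))) atTop (𝓝 0)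

end

end Pool.Agent.V5helper2.NR
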