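import Mathlib
import Pool.Agent.V5helper2.NR.Stm

set_option autoImplicit false
open Finset Filter Topology MeasureTheory AddCircle
open scoped ComplexConjugate

namespace Pool.Agent.V5helper2.NR

open Pool.Agent.Helper498.NCR Pool.Agent.V5helper2.CF

noncomputable section

variable {Ω : Type} [MeasurableSpace Ω] {μ : Measure Ω} [IsProbabilityMeasure μ]

/-- a property of a point and a sequence of lengths that holds almost surely along all sequences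
along which countably many auxiliary functions tend to zero -/
def AE0 (μ : Measure Ω) (P : Ω → (ℕ → ℕ) → Prop) : Prop :=
  ∃ K : ℕ → ℕ → Lp ℂ 2 μ, (∀ k, Tendsto (K k) atTop (𝓝 0)) ∧
    ∀ᵐ x ∂μ, ∀ N : ℕ → ℕ, Tendsto N atTop atTop →
      (∀ k, Tendsto (fun i => K k (N i) x) atTop (𝓝 0)) → P x N

omit [IsProbabilityMeasure μ] in
lemma AE0.all {P : ℕ → Ω → (ℕ → ℕ) → Prop} (h : ∀ n, AE0 μ (P n)) :
    AE0 μ (fun x N => ∀ n, P n x N) := by
  choose K hK h using h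
  refine ⟨fun k => K (Nat.unpair k).1 (Nat.unpair k).2, fun k => hK _ _, ?_⟩
  filter_upwards [ae_all_iff.2 h] with x hx N hN hk n
  exact hx n N hN fun k => by simpa using hk (Nat.pair n k)

omit [IsProbabilityMeasure μ] in
lemma AE0.mono {P Q : Ω → (ℕ → ℕ) → Prop} (h : AE0 μ P)
    (hPQ : ∀ x N, Tendsto N atTop atTop → P x N → Q x N) : AE0 μ Q := by
  obtain ⟨K, hK, h⟩ := h
  refine ⟨K, hK, ?_⟩
  filter_upwards [h] with x hx N hN hk
  exact hPQ x N hN (hx N hN hk)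

omit [IsProbabilityMeasure μ] in
lemma AE0.and {P Q : Ω → (ℕ → ℕ) → Prop} (hP : AE0 μ P) (hQ : AE0 μ Q) :
    AE0 μ (fun x N => P x N ∧ Q x N) := by
  have h := AE0.all (P := fun n => if n = 0 then P else Q) (μ := μ) (by
    intro n
    by_cases hn : n = 0
    · simpa [hn] using hP
    · simpa [hn] using hQ)
  refine h.mono fun x N _ hx => ⟨?_, ?_⟩
  · simpa using hx 0
  · simpa using hx 1

lemma AE0.of_ae {P : Ω → Prop} (h : ∀ᵐ x ∂μ, P x) : AE0 μ (fun x _ => P x) := by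
  refine ⟨fun _ _ => 0, fun _ => tendsto_const_nhds, ?_⟩
  filter_upwards [h] with x hx N _ _
  exact hx

lemma AE0.extract {P : Ω → (ℕ → ℕ) → Prop} (h : AE0 μ P) (b : ℕ → ℕ)
    (hb : Tendsto b atTop atTop) :
    ∃ J : ℕ → ℕ, (∀ i, i ≤ J i) ∧ ∀ᵐ x ∂μ, P x (fun i => b (J i)) := by
  obtain ⟨K, hK, h⟩ := h
  obtain ⟨J, hJ1, hJ2⟩ := common_subseq (fun k i => K k (b i)) fun k => (hK k).comp hb
  refine ⟨J, hJ1, ?_⟩
  filter_upwards [h, hJ2] with x h1 h2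
  exact h1 _ (hb.comp (tendsto_atTop_mono hJ1 tendsto_id)) h2

/-- correlations exist -/
theorem corr_ae0 {T : Ω → Ω} (hT : MeasurePreserving T μ μ) {g : Ω → ℂ} (hg : Measurable g)
    (hg1 : ∀ x, ‖g x‖ ≤ 1) :
    ∃ p : ℕ → Lp ℂ 2 μ, AE0 μ (fun x N => Corr (fun n => g (T^[n] x)) N (fun k => p k x)) := by
  set U := koop hT with hU
  set X : ℕ → Lp ℂ 2 μ := fun k => (memLp_bdd (μ := μ)
      (Gk_meas hT.measurable hg k) (Gk_bdd T hg1 k)).toLp (Gk T g k) with hX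
  choose p hp hlim using fun k => mean_erg U (X k)
  have hlim' : ∀ k, Tendsto (fun J : ℕ => tavg U 1 J (X k)) atTop (𝓝 (p k)) := by
    intro k
    refine (hlim k).congr fun J => ?_
    rw [tavg_one]
  refine ⟨p, fun k J => tavg U 1 J (X k) - p k, fun k => by simpa using (hlim' k).sub_const (p k), ?_⟩
  have e1 : ∀ᵐ x ∂μ, ∀ k J : ℕ, (tavg U 1 J (X k) - p k : Lp ℂ 2 μ) x =
      (J : ℂ)⁻¹ * ∑ j ∈ range J, g (T^[j + k] x) * conj (g (T^[j] x)) - p k x := by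
    rw [ae_all_iff]; intro k
    rw [ae_all_iff]; intro J
    filter_upwards [Lp.coeFn_sub (tavg U 1 J (X k)) (p k), avg_coe hT (memLp_bdd (μ := μ)
      (Gk_meas hT.measurable hg k) (Gk_bdd T hg1 k)) 1 J] with x h1 h2
    rw [h1, Pi.sub_apply]
    congr 1
    rw [hX, hU]
    refine h2.trans ?_
    congr 1
    refine Finset.sum_congr rfl fun j _ => ?_
    rw [one_pow, one_mul, Gk_iter]
  filter_upwards [e1] with x h2 N _ h1 k
  have h3 := (h1 k).add_const (p k x)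
  simp only [h2, sub_add_cancel, zero_add] at h3
  exact h3

/-- twisting a sequence by a character -/
lemma corr_twist {B : ℂ} (hB : ‖B‖ = 1) {a : ℕ → ℂ} {N : ℕ → ℕ} {γ : ℕ → ℂ} (h : Corr a N γ) :
    Corr (fun n => B ^ n * a n) N (fun k => B ^ k * γ k) := by
  intro k
  refine ((h k).const_mul (B ^ k)).congr fun i => ?_
  rw [mul_left_comm, Finset.mul_sum]
  congr 1
  refine Finset.sum_congr rfl fun j _ => ?_
  have h1 : B ^ j * conj (B ^ j) = 1 := by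
    rw [Complex.mul_conj, Complex.normSq_eq_norm_sq, norm_pow, hB]; simp
  simp only [map_mul, pow_add] at h1 ⊢
  linear_combination (-(B ^ k * a (j + k) * conj (a j))) * h1

lemma absentAlong_twist {B z : ℂ} (hB : ‖B‖ = 1) {a : ℕ → ℂ} {N : ℕ → ℕ}
    (h : AbsentAlong (B * z) a N) : AbsentAlong z (fun n => B ^ n * a n) N := by
  intro ε hε
  obtain ⟨H, hH1, hH⟩ := h ε hε
  refine ⟨H, hH1, hH.mono fun i hi => le_trans (le_of_eq ?_) hi⟩
  congr 1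
  refine Finset.sum_congr rfl fun n _ => ?_
  congr 1
  have : (H : ℂ)⁻¹ * ∑ h ∈ range H, z ^ h * (B ^ (n + h) * a (n + h)) =
      B ^ n * ((H : ℂ)⁻¹ * ∑ h ∈ range H, (B * z) ^ h * a (n + h)) := by
    rw [mul_left_comm (B ^ n), Finset.mul_sum (range H) _ (B ^ n)]
    congr 1
    refine Finset.sum_congr rfl fun h _ => ?_
    rw [mul_pow, pow_add]; ring
  rw [this, norm_mul, norm_pow, hB, one_pow, one_mul]

lemma absent_along {z : ℂ} {a : ℕ → ℂ} (h : Absent z a) {N : ℕ → ℕ}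
    (hN : Tendsto N atTop atTop) : AbsentAlong z a N := by
  intro ε hε
  obtain ⟨H₀, h1⟩ := h ε hε
  obtain ⟨N₀, h2⟩ := h1 (max H₀ 1) (le_max_left _ _)
  exact ⟨max H₀ 1, le_max_right _ _, (hN.eventually_ge_atTop N₀).mono fun i hi => h2 _ hi⟩

/-- subtracting a sequence with small local averages -/
lemma absent_sub {z : ℂ} {a b : ℕ → ℂ} (h : Absent z a) {N : ℕ → ℕ}
    (hN : Tendsto N atTop atTop)
    (hb : ∀ ε > (0 : ℝ), ∃ H₀ : ℕ, ∀ H ≥ H₀, ∀ᶠ i in atTop,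
        ((N i : ℕ) : ℝ)⁻¹ * ∑ n ∈ range (N i),
          ‖(H : ℂ)⁻¹ * ∑ h ∈ range H, z ^ h * b (n + h)‖ ^ 2 ≤ ε) :
    AbsentAlong z (fun n => a n - b n) N := by
  intro ε hε
  obtain ⟨H₀, h1⟩ := h (ε / 4) (by positivity)
  obtain ⟨H₁, h2⟩ := hb (ε / 4) (by positivity)
  set H := max (max H₀ H₁) 1 with hH
  have hHa : H₀ ≤ H := by rw [hH]; omega
  have hHb : H₁ ≤ H := by rw [hH]; omega
  have hHc : 1 ≤ H := by rw [hH]; omega
  obtain ⟨N₀, h3⟩ := h1 H hHa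
  refine ⟨H, hHc, ?_⟩
  filter_upwards [hN.eventually_ge_atTop N₀, h2 H hHb] with i hi1 hi2
  have h4 := h3 (N i) hi1
  have h5 : ∀ n, ‖(H : ℂ)⁻¹ * ∑ h ∈ range H, z ^ h * (a (n + h) - b (n + h))‖ ^ 2 ≤
      2 * ‖(H : ℂ)⁻¹ * ∑ h ∈ range H, z ^ h * a (n + h)‖ ^ 2 +
      2 * ‖(H : ℂ)⁻¹ * ∑ h ∈ range H, z ^ h * b (n + h)‖ ^ 2 := by
    intro n
    have e : (H : ℂ)⁻¹ * ∑ h ∈ range H, z ^ h * (a (n + h) - b (n + h)) =
        (H : ℂ)⁻¹ * ∑ h ∈ range H, z ^ h * a (n + h) -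
        (H : ℂ)⁻¹ * ∑ h ∈ range H, z ^ h * b (n + h) := by
      rw [← mul_sub, ← Finset.sum_sub_distrib]
      congr 1
      exact Finset.sum_congr rfl fun h _ => by ring
    rw [e]
    have h6 := norm_sub_le ((H : ℂ)⁻¹ * ∑ h ∈ range H, z ^ h * a (n + h))
      ((H : ℂ)⁻¹ * ∑ h ∈ range H, z ^ h * b (n + h))
    have h7 := pow_le_pow_left₀ (norm_nonneg _) h6 2
    nlinarith [sq_nonneg (‖(H : ℂ)⁻¹ * ∑ h ∈ range H, z ^ h * a (n + h)‖ -
      ‖(H : ℂ)⁻¹ * ∑ h ∈ range H, z ^ h * b (n + h)‖)]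
  calc ((N i : ℕ) : ℝ)⁻¹ * ∑ n ∈ range (N i),
      ‖(H : ℂ)⁻¹ * ∑ h ∈ range H, z ^ h * (a (n + h) - b (n + h))‖ ^ 2
      ≤ ((N i : ℕ) : ℝ)⁻¹ * ∑ n ∈ range (N i),
        (2 * ‖(H : ℂ)⁻¹ * ∑ h ∈ range H, z ^ h * a (n + h)‖ ^ 2 +
      2 * ‖(H : ℂ)⁻¹ * ∑ h ∈ range H, z ^ h * b (n + h)‖ ^ 2) := by
        refine mul_le_mul_of_nonneg_left (Finset.sum_le_sum fun n _ => h5 n) (by positivity)
    _ = 2 * (((N i : ℕ) : ℝ)⁻¹ * ∑ n ∈ range (N i),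
        ‖(H : ℂ)⁻¹ * ∑ h ∈ range H, z ^ h * a (n + h)‖ ^ 2) +
      2 * (((N i : ℕ) : ℝ)⁻¹ * ∑ n ∈ range (N i),
        ‖(H : ℂ)⁻¹ * ∑ h ∈ range H, z ^ h * b (n + h)‖ ^ 2) := by
        rw [Finset.sum_add_distrib, ← Finset.mul_sum, ← Finset.mul_sum]; ring
    _ ≤ 2 * (ε / 4) + 2 * (ε / 4) := by gcongr
    _ = ε := by ring

end

end Pool.Agent.V5helper2.NR
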