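import Mathlib
import Pool.Agent.V5helper2.NR.Stm

set_option autoImplicit false
open Finset Filter Topology MeasureTheory AddCircle
open scoped ComplexConjugate

namespace Pool.Agent.V5helper2.NR

open Pool.Agent.Helper498.NCR Pool.Agent.V5helper2.CF

noncomputable section

/-- job PM2 (takes `S_PMS` as hypothesis).  Proof: apply `S_PMS` to `ρ' = ρ.map (fun t => t + t)`
and `σ' = σ.map (fun t => -t)`, `γ' k = γ (2 k)`, `δ' k = conj (δ k)`: `Rep ρ' γ'` as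
`∫ fourier (m-n) (t+t) ∂ρ = ∫ fourier (2m-2n) t ∂ρ` and `Gam γ' n m = Gam γ (2n) (2m)`; `Rep σ' δ'` as
`∫ fourier (m-n) (-t) ∂σ = ∫ fourier (n-m) t ∂σ = conj (Gam δ m n) = Gam δ n m = conj (Gam δ' n m)`
(`Gam δ n n = δ 0` is real, being `∫ 1 ∂σ`).  `ρ'{s} = ρ {t | t + t = s}`: a set of at most two (or
countably many) points; if `σ'{s} = σ{-s} ≠ 0` then `ρ{t} = 0` for all `t` with `t + t = s`
(there are at most countably many such `t`: finite, as `2 • (t - t') = 0`; or use that the set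
where `ρ{t} ≠ 0` is irrelevant: cover by `t₀, t₀ + 1/2`). -/
def S_PM2 : Prop := ∀ ρ σ : Measure Ci, IsFiniteMeasure ρ → IsFiniteMeasure σ →
  ∀ γ δ : ℕ → ℂ, Rep ρ γ → Rep σ δ → (∀ t, ρ {t} = 0 ∨ σ {-(t + t)} = 0) →
  Tendsto (fun H : ℕ => ((H : ℂ) ^ 2)⁻¹ * ∑ h ∈ range H, ∑ h' ∈ range H,
    Gam γ (2 * h) (2 * h') * Gam δ h h') atTop (𝓝 0)

/-- general van der Corput inequality (helper2) -/
def S_DEG : Prop := ∀ (φ ψ χ : ℕ → ℕ → ℕ),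
  (∀ m n m' n', φ m n = φ m' n' → ψ m n = ψ m' n' → m = m' ∧ n = n') →
  (∀ N m n, m < N → n < N → φ m n < 3 * N) → (∀ N m n, m < N → n < N → ψ m n < 3 * N) →
  ∀ (a c v : ℕ → ℂ), (∀ n, ‖a n‖ ≤ 1) → (∀ n, ‖c n‖ ≤ 1) → (∀ n, ‖v n‖ ≤ 1) →
  ∀ J N : ℕ, 1 ≤ J → 1 ≤ N → ∀ (α β p q : ℕ → ℕ) (k B : ℕ), (∀ j < J, α j + β j ≤ B) →
  (∀ j < J, ∀ m n, φ (m + α j) (n + β j) = φ m n + p j) →
  (∀ j < J, ∀ m n, ψ (m + α j) (n + β j) = ψ m n + q j) →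
  (∀ j < J, ∀ m n, χ (m + α j) (n + β j) = χ m n + k) →
  ‖bavg N (fun m n => a (φ m n) * c (ψ m n) * v (χ m n))‖ ^ 2 ≤ 2 * (2 * B / N) ^ 2 +
    2 * ‖((J : ℂ) ^ 2)⁻¹ * ∑ j ∈ range J, ∑ j' ∈ range J,
      ((N : ℂ)⁻¹ * ∑ k ∈ range (3 * N), a (k + p j) * conj (a (k + p j'))) *
      ((N : ℂ)⁻¹ * ∑ l ∈ range (3 * N), c (l + q j) * conj (c (l + q j')))‖

end

end Pool.Agent.V5helper2.NR
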