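import Mathlib
import Pool.Agent.V5helper2.NR.Ae
import Pool.Agent.V5helper2.NR.Stm2
import Pool.Agent.V5helper91.NR.DTM

set_option autoImplicit false
open Finset Filter Topology MeasureTheory AddCircle
open scoped ComplexConjugate

namespace Pool.Agent.V5helper2.NR

open Pool.Agent.Helper498.NCR Pool.Agent.V5helper2.CF Pool.Agent.V5helper91.NR

noncomputable section

/-- the deterministic theorem for general forms -/
theorem dtm_gen (h4 : S_DEG) (φ ψ χ : ℕ → ℕ → ℕ)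
    (hinj : ∀ m n m' n', φ m n = φ m' n' → ψ m n = ψ m' n' → m = m' ∧ n = n')
    (hφ3 : ∀ N m n, m < N → n < N → φ m n < 3 * N)
    (hψ3 : ∀ N m n, m < N → n < N → ψ m n < 3 * N)
    (a c v : ℕ → ℂ) (ha : ∀ n, ‖a n‖ ≤ 1) (hc : ∀ n, ‖c n‖ ≤ 1) (hv : ∀ n, ‖v n‖ ≤ 1)
    (γ δ : ℕ → ℂ) (N : ℕ → ℕ) (hN : Tendsto N atTop atTop)
    (hγ : Corr a (fun i => 3 * N i) γ) (hδ : Corr c (fun i => 3 * N i) δ)
    (W : ℕ → ℕ → ℂ)
    (hsh : ∀ J : ℕ, ∃ (α β p q : ℕ → ℕ) (k B : ℕ), (∀ j < J, α j + β j ≤ B) ∧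
      (∀ j < J, ∀ m n, φ (m + α j) (n + β j) = φ m n + p j) ∧
      (∀ j < J, ∀ m n, ψ (m + α j) (n + β j) = ψ m n + q j) ∧
      (∀ j < J, ∀ m n, χ (m + α j) (n + β j) = χ m n + k) ∧
      (∀ j < J, ∀ j' < J, Gam γ (p j) (p j') * Gam δ (q j) (q j') = W j j'))
    (hlim : Tendsto (fun H : ℕ => ((H : ℂ) ^ 2)⁻¹ * ∑ h ∈ range H, ∑ h' ∈ range H, W h h')
      atTop (𝓝 0)) :
    Tendsto (fun i => bavg (N i) (fun m n => a (φ m n) * c (ψ m n) * v (χ m n))) atTop (𝓝 0) := by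
  rw [tendsto_zero_iff_norm_tendsto_zero, Metric.tendsto_atTop]
  intro ε hε
  obtain ⟨J, hJ1, hJ⟩ : ∃ J : ℕ, 1 ≤ J ∧ ‖((J : ℂ) ^ 2)⁻¹ * ∑ h ∈ range J, ∑ h' ∈ range J,
      W h h'‖ < ε ^ 2 / 36 := by
    have h5 := (tendsto_zero_iff_norm_tendsto_zero.1 hlim).eventually_lt_const
      (by positivity : (0 : ℝ) < ε ^ 2 / 36)
    obtain ⟨J, hJ, hJ1⟩ := (h5.and (eventually_ge_atTop 1)).exists
    exact ⟨J, hJ1, hJ⟩
  obtain ⟨α, β, p, q, k, B, hB, hφ, hψ, hχ, hW⟩ := hsh J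
  have hR : Tendsto (fun i => 2 * (2 * (B : ℝ) / (N i : ℝ)) ^ 2 +
      2 * ‖((J : ℂ) ^ 2)⁻¹ * ∑ j ∈ range J, ∑ j' ∈ range J,
        (((N i : ℕ) : ℂ)⁻¹ * ∑ k ∈ range (3 * N i), a (k + p j) * conj (a (k + p j'))) *
        (((N i : ℕ) : ℂ)⁻¹ * ∑ l ∈ range (3 * N i), c (l + q j) * conj (c (l + q j')))‖)
      atTop (𝓝 (2 * (0 : ℝ) ^ 2 + 2 * ‖((J : ℂ) ^ 2)⁻¹ * ∑ j ∈ range J, ∑ j' ∈ range J,
        (3 * Gam γ (p j) (p j')) * (3 * Gam δ (q j) (q j'))‖)) := by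
    refine Tendsto.add ?_ ?_
    · refine ((Tendsto.div_atTop tendsto_const_nhds
        (tendsto_natCast_atTop_atTop.comp hN)).pow 2).const_mul 2
    · refine (Tendsto.norm (Tendsto.const_mul _ ?_)).const_mul 2
      refine tendsto_finsetSum _ fun j _ => tendsto_finsetSum _ fun j' _ => ?_
      exact (corr_three ha hN hγ (p j) (p j')).mul (corr_three hc hN hδ (q j) (q j'))
  have hval : 2 * (0 : ℝ) ^ 2 + 2 * ‖((J : ℂ) ^ 2)⁻¹ * ∑ j ∈ range J, ∑ j' ∈ range J,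
        (3 * Gam γ (p j) (p j')) * (3 * Gam δ (q j) (q j'))‖ < ε ^ 2 := by
    have e1 : ∑ j ∈ range J, ∑ j' ∈ range J, (3 * Gam γ (p j) (p j')) * (3 * Gam δ (q j) (q j')) =
        9 * ∑ j ∈ range J, ∑ j' ∈ range J, W j j' := by
      rw [Finset.mul_sum]
      refine Finset.sum_congr rfl fun j hj => ?_
      rw [Finset.mul_sum]
      refine Finset.sum_congr rfl fun j' hj' => ?_
      rw [← hW j (mem_range.1 hj) j' (mem_range.1 hj')]
      ring
    rw [e1, mul_left_comm, norm_mul]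
    have e2 : ‖(9 : ℂ)‖ = 9 := by simp
    rw [e2]
    have e3 : (0 : ℝ) < ε ^ 2 := by positivity
    nlinarith [hJ]
  obtain ⟨i₀, hi₀⟩ := eventually_atTop.1 (hR.eventually_lt_const hval)
  obtain ⟨i₁, hi₁⟩ := eventually_atTop.1 (hN.eventually_ge_atTop 1)
  refine ⟨max i₀ i₁, fun i hi => ?_⟩
  have h6 := h4 φ ψ χ hinj hφ3 hψ3 a c v ha hc hv J (N i) hJ1
    (hi₁ i ((le_max_right _ _).trans hi)) α β p q k B hB hφ hψ hχ
  have h7 := hi₀ i ((le_max_left _ _).trans hi)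
  have h8 := lt_of_le_of_lt h6 h7
  rw [Real.dist_eq, sub_zero, abs_of_nonneg (norm_nonneg _)]
  exact lt_of_pow_lt_pow_left₀ 2 hε.le h8

/-- the property of three forms proved by the deterministic theorem; `τ` describes the
resonance -/
def Det (φ ψ χ : ℕ → ℕ → ℕ) (τ : ℂ → ℂ) : Prop :=
  ∀ (a c v : ℕ → ℂ), (∀ n, ‖a n‖ ≤ 1) → (∀ n, ‖c n‖ ≤ 1) → (∀ n, ‖v n‖ ≤ 1) →
  ∀ (γ δ : ℕ → ℂ) (N : ℕ → ℕ), Tendsto N atTop atTop →
  Corr a (fun i => 3 * N i) γ → Corr c (fun i => 3 * N i) δ →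
  (∀ z : ℂ, ‖z‖ = 1 → AbsentAlong z a (fun i => 3 * N i) ∨
    AbsentAlong (τ z) c (fun i => 3 * N i)) →
  Tendsto (fun i => bavg (N i) (fun m n => a (φ m n) * c (ψ m n) * v (χ m n))) atTop (𝓝 0)

lemma three_mul_tendsto {N : ℕ → ℕ} (hN : Tendsto N atTop atTop) :
    Tendsto (fun i => 3 * N i) atTop atTop :=
  tendsto_atTop_mono (fun i => by show N i ≤ 3 * N i; omega) hN

/-- resonance between `m` and `m+2n` -/
theorem det_TR (h1 : S_RHO) (h2 : S_ATM) (h3 : S_PMS) (h4 : S_DEG) :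
    Det (fun m _ => m) (fun m n => m + 2 * n) (fun m n => m + n) (fun z => z) := by
  intro a c v ha hc hv γ δ N hN hγ hδ habs
  have hM := three_mul_tendsto hN
  obtain ⟨ρ, hρf, hρ⟩ := h1 a ha γ _ hM hγ
  obtain ⟨σ, hσf, hσ⟩ := h1 c hc δ _ hM hδ
  have hpt : ∀ t : Ci, ρ {t} = 0 ∨ σ {t} = 0 := by
    intro t
    rcases habs (fourier (-1) t) (fourier_pt_norm _ t) with h | h
    · exact Or.inl (h2 a ha γ _ hM hγ ρ hρf hρ t h)
    · exact Or.inr (h2 c hc δ _ hM hδ σ hσf hσ t h)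
  have hlim := h3 ρ σ hρf hσf γ δ hρ hσ hpt
  refine dtm_gen h4 _ _ _ ?_ ?_ ?_ a c v ha hc hv γ δ N hN hγ hδ
    (fun h h' => Gam γ h h' * conj (Gam δ h h')) (fun J => ⟨fun j => j, fun j => J - j,
      fun j => j, fun j => 2 * J - j, J, J, ?_, ?_, ?_, ?_, ?_⟩) hlim
  · intro m n m' n' h h'
    (try simp only at h h')
    omega
  · intro N m n h h'
    (try simp only)
    omega
  · intro N m n h h'
    (try simp only)
    omega
  · intro j hj; simp only; omega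
  · intro j hj m n; simp only
  · intro j hj m n; (try simp only); (try omega)
  · intro j hj m n; (try simp only); (try omega)
  · intro j hj j' hj'
    simp only
    rw [gam_refl hδ J j j' hj hj']

/-- Gam is shift invariant -/
lemma gam_shift (δ : ℕ → ℂ) (J j j' : ℕ) : Gam δ (J + j) (J + j') = Gam δ j j' := by
  unfold Gam
  by_cases h : j' ≤ j
  · rw [if_pos (by omega), if_pos h]
    congr 1; omega
  · rw [if_neg (by omega), if_neg h]
    congr 2; omega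

lemma fourier_neg_two (t : Ci) : fourier (-1) (-(t + t)) = (conj (fourier (-1) t : ℂ)) ^ 2 := by
  rw [← fourier_neg, neg_neg, sq, ← fourier_add, fourier_apply, fourier_apply]
  congr 2
  simp only [neg_smul, one_smul, neg_neg]
  rw [show ((1 : ℤ) + 1) • t = t + t by rw [add_smul, one_smul]]

lemma hpt_two (h2 : S_ATM) {a c : ℕ → ℂ} (ha : ∀ n, ‖a n‖ ≤ 1) (hc : ∀ n, ‖c n‖ ≤ 1)
    {γ δ : ℕ → ℂ} {M : ℕ → ℕ} (hM : Tendsto M atTop atTop) (hγ : Corr a M γ) (hδ : Corr c M δ)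
    (habs : ∀ z : ℂ, ‖z‖ = 1 → AbsentAlong z a M ∨ AbsentAlong (conj z ^ 2) c M)
    (ρ σ : Measure Ci) (hρf : IsFiniteMeasure ρ) (hσf : IsFiniteMeasure σ) (hρ : Rep ρ γ)
    (hσ : Rep σ δ) (t : Ci) : ρ {t} = 0 ∨ σ {-(t + t)} = 0 := by
  rcases habs (fourier (-1) t) (fourier_pt_norm _ t) with h | h
  · exact Or.inl (h2 a ha γ _ hM hγ ρ hρf hρ t h)
  · refine Or.inr (h2 c hc δ _ hM hδ σ hσf hσ (-(t + t)) ?_)
    rw [fourier_neg_two]; exact h

/-- resonance between `m` and `m+n` -/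
theorem det_TS (h1 : S_RHO) (h2 : S_ATM) (h3 : S_PM2) (h4 : S_DEG) :
    Det (fun m _ => m) (fun m n => m + n) (fun m n => m + 2 * n) (fun z => conj z ^ 2) := by
  intro a c v ha hc hv γ δ N hN hγ hδ habs
  have hM := three_mul_tendsto hN
  obtain ⟨ρ, hρf, hρ⟩ := h1 a ha γ _ hM hγ
  obtain ⟨σ, hσf, hσ⟩ := h1 c hc δ _ hM hδ
  have hlim := h3 ρ σ hρf hσf γ δ hρ hσ
    (hpt_two h2 ha hc hM hγ hδ habs ρ σ hρf hσf hρ hσ)
  refine dtm_gen h4 _ _ _ ?_ ?_ ?_ a c v ha hc hv γ δ N hN hγ hδ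
    (fun h h' => Gam γ (2 * h) (2 * h') * Gam δ h h') (fun J => ⟨fun j => 2 * j, fun j => J - j,
      fun j => 2 * j, fun j => J + j, 2 * J, 2 * J, ?_, ?_, ?_, ?_, ?_⟩) hlim
  · intro m n m' n' h h'
    (try simp only at h h')
    omega
  · intro N m n h h'
    (try simp only)
    omega
  · intro N m n h h'
    (try simp only)
    omega
  · intro j hj; simp only; omega
  · intro j hj m n; simp only
  · intro j hj m n; (try simp only); (try omega)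
  · intro j hj m n; (try simp only); (try omega)
  · intro j hj j' hj'
    simp only
    rw [gam_shift]

/-- resonance between `m+2n` and `m+n` -/
theorem det_RS (h1 : S_RHO) (h2 : S_ATM) (h3 : S_PM2) (h4 : S_DEG) :
    Det (fun m n => m + 2 * n) (fun m n => m + n) (fun m _ => m) (fun z => conj z ^ 2) := by
  intro a c v ha hc hv γ δ N hN hγ hδ habs
  have hM := three_mul_tendsto hN
  obtain ⟨ρ, hρf, hρ⟩ := h1 a ha γ _ hM hγ
  obtain ⟨σ, hσf, hσ⟩ := h1 c hc δ _ hM hδ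
  have hlim := h3 ρ σ hρf hσf γ δ hρ hσ
    (hpt_two h2 ha hc hM hγ hδ habs ρ σ hρf hσf hρ hσ)
  refine dtm_gen h4 _ _ _ ?_ ?_ ?_ a c v ha hc hv γ δ N hN hγ hδ
    (fun h h' => Gam γ (2 * h) (2 * h') * Gam δ h h') (fun J => ⟨fun j => 0, fun j => j,
      fun j => 2 * j, fun j => j, 0, J, ?_, ?_, ?_, ?_, ?_⟩) hlim
  · intro m n m' n' h h'
    (try simp only at h h')
    omega
  · intro N m n h h'
    (try simp only)
    omega
  · intro N m n h h'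
    (try simp only)
    omega
  · intro j hj; simp only; omega
  · intro j hj m n; (try simp only); (try omega)
  · intro j hj m n; (try simp only); (try omega)
  · intro j hj m n; (try simp only); (try omega)
  · intro j hj j' hj'
    rfl

end

end Pool.Agent.V5helper2.NR
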