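import Mathlib
import Pool.Agent.V5helper2.NR.Stm2

set_option autoImplicit false
open Finset Filter Topology MeasureTheory AddCircle
open scoped ComplexConjugate

namespace Pool.Agent.V5helper2.NR

open Pool.Agent.Helper498.NCR Pool.Agent.V5helper2.CF

noncomputable section

/-- local Fourier average of `a` at the frequency `t` -/
def loc (t : Ci) (H : ℕ) (a : ℕ → ℂ) (n : ℕ) : ℂ :=
  (H : ℂ)⁻¹ * ∑ h ∈ range H, (fourier (-1) t) ^ h * a (n + h)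

/-- remove the frequencies of the finite set `F` -/
def rem (F : Finset Ci) (H : ℕ) (a : ℕ → ℂ) (n : ℕ) : ℂ := a n - ∑ t ∈ F, loc t H a n

/-- the spectral weight of `rem` -/
def wgt (F : Finset Ci) (H : ℕ) (s : Ci) : ℝ :=
  ‖1 - ∑ t ∈ F, (H : ℂ)⁻¹ * ∑ h ∈ range H, (fourier (-1) t) ^ h * fourier (h : ℤ) s‖ ^ 2

/-- the mass of the diagonal -/
def dmass (ρ σ : Measure Ci) : ℝ := ((ρ.prod σ) {p : Ci × Ci | p.1 = p.2}).toReal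

/-- job SPC: spectral measure of `rem F H a`.  Proof: `rem F H a n = ∑_{k<H} u k * a (n+k)` with
`u k = (if k = 0 then 1 else 0) - (H)⁻¹ ∑_{t∈F} (fourier (-1) t)^k`; put
`γ' m = ∫ fourier m s * wgt F H s ∂ρ`; the average of `rem (j+m) * conj (rem j)` tends to
`∑_{k,k'} u k conj(u k') Gam γ (m+k) k' = ∫ fourier m s |∑ u k fourier k s|² ∂ρ` (`corr_shift` in
`V5helper91/NR/DTM.lean`: averages of `a(n+p) conj(a(n+q))` tend to `Gam γ p q`), and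
`∑_{k<H} u k * fourier k s = 1 - ∑_t ...` is the expression in `wgt`. -/
def S_SPC : Prop := ∀ (a : ℕ → ℂ), (∀ n, ‖a n‖ ≤ 1) → ∀ (γ : ℕ → ℂ) (M : ℕ → ℕ),
  Tendsto M atTop atTop → Corr a M γ → ∀ ρ : Measure Ci, IsFiniteMeasure ρ → Rep ρ γ →
  ∀ (F : Finset Ci) (H : ℕ), 1 ≤ H → ∃ γ' : ℕ → ℂ, Corr (rem F H a) M γ' ∧
    Rep (ρ.withDensity fun s => ENNReal.ofReal (wgt F H s)) γ'

/-- job QPM: quantitative `S_PMS` (see the proof of `t_PMS` in `V5helper53/NR/PMS.lean`: the same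
with the limit of the integrals over `ρ.prod σ` not assumed to be 0). -/
def S_QPM : Prop := ∀ ρ σ : Measure Ci, IsFiniteMeasure ρ → IsFiniteMeasure σ →
  ∀ γ δ : ℕ → ℂ, Rep ρ γ → Rep σ δ →
  Tendsto (fun H : ℕ => ((H : ℂ) ^ 2)⁻¹ * ∑ h ∈ range H, ∑ h' ∈ range H,
    Gam γ h h' * conj (Gam δ h h')) atTop (𝓝 ((dmass ρ σ : ℝ) : ℂ))

/-- job QDT: quantitative `S_DTM` (see `t_DTM` in `V5helper91/NR/DTM.lean` and `dtm_gen`, `det_TR`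
in `V5helper2/NR/Gen.lean`), takes `S_DEG`, `S_QPM` as hypotheses.  `a` is bounded by `C`: apply
everything to `a n / C` (correlations `γ k / C²`), so that
`limsup ‖bavg‖² ≤ 18 ‖(J²)⁻¹ ∑∑ Gam γ j j' conj (Gam δ j j')‖` for each `J`. -/
def S_QDT : Prop := ∀ (a v c : ℕ → ℂ) (C : ℝ), 1 ≤ C → (∀ n, ‖a n‖ ≤ C) → (∀ n, ‖v n‖ ≤ 1) →
  (∀ n, ‖c n‖ ≤ 1) → ∀ (γ δ : ℕ → ℂ) (N : ℕ → ℕ), Tendsto N atTop atTop →
  Corr a (fun i => 3 * N i) γ → Corr c (fun i => 3 * N i) δ →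
  ∀ ρ σ : Measure Ci, IsFiniteMeasure ρ → IsFiniteMeasure σ → Rep ρ γ → Rep σ δ →
  ∀ η > (0 : ℝ), ∀ᶠ i in atTop,
    ‖bavg (N i) (fun m n => a m * v (m + n) * c (m + 2 * n))‖ ^ 2 ≤ 18 * dmass ρ σ + η

/-- job DIA.  Proof: `dmass (ρ.withDensity w) σ = ∫ w(s) ρ{s} ∂σ(s)`.  The set
`D = {s | ρ{s} ≠ 0 ∧ σ{s} ≠ 0}` is countable and this is `∑_{s∈D} w(s) ρ{s} σ{s}`; choose the finite
`F ⊆ D` with `∑_{s∈D∖F} ρ{s} σ{s} < ε`; as `H → ∞`, `wgt F H s → 0` for `s ∈ F` and `→ 1` for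
`s ∉ F` (geometric sums, `char_avg` in `Helper498/NCR/Weights.lean`), `0 ≤ wgt ≤ (1+|F|)²`, so
dominated convergence. -/
def S_DIA : Prop := ∀ ρ σ : Measure Ci, IsFiniteMeasure ρ → IsFiniteMeasure σ →
  ∀ ε > (0 : ℝ), ∃ F : Finset Ci, (∀ t ∈ F, ρ {t} ≠ 0 ∧ σ {t} ≠ 0) ∧ ∃ H₀ : ℕ, ∀ H ≥ H₀,
    dmass (ρ.withDensity fun s => ENNReal.ofReal (wgt F H s)) σ ≤ ε

/-- job SLW.  Proof: let `L = loc t H a`, `‖L‖ ≤ 1`.  `avg_shift` (in `Helper498/NCR/VdC.lean`) with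
`α j = 2j`, `β j = J - j`, `B = 2J`: up to `4J/N` the average is that of
`c(m+2n+2J) * (J)⁻¹ ∑_{j<J} L(m+2j) b(m+n+J+j)`.  `L(m+i) = (fourier 1 t)^i (L m + error)`, error at
most `2i/H`, so `L(m+2j) = (fourier 2 t)^j L m + O(4J/H)`.  So the norm is at most
`4J/N + 4J/H + (N²)⁻¹ ∑_{m,n<N} X(m+n+J)` with `X k = ‖(J)⁻¹ ∑_{j<J} (fourier 2 t)^j b(k+j)‖`; as
`J ≤ N` the last sum is at most `(N)⁻¹ ∑_{k<3N} X k ≤ 3 ((3N)⁻¹ ∑_{k<3N} (X k)²)^{1/2}`. -/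
def S_SLW : Prop := ∀ (a b c : ℕ → ℂ), (∀ n, ‖a n‖ ≤ 1) → (∀ n, ‖b n‖ ≤ 1) → (∀ n, ‖c n‖ ≤ 1) →
  ∀ (t : Ci) (H J N : ℕ), 1 ≤ H → 1 ≤ J → 1 ≤ N → J ≤ N →
  ‖bavg N (fun m n => loc t H a m * b (m + n) * c (m + 2 * n))‖ ≤ 4 * J / N + 4 * J / H +
    3 * Real.sqrt (((3 * N : ℕ) : ℝ)⁻¹ * ∑ k ∈ range (3 * N),
      ‖(J : ℂ)⁻¹ * ∑ j ∈ range J, (fourier 2 t) ^ j * b (k + j)‖ ^ 2)

/-- the deterministic theorem for triple resonances (helper2) -/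
def S_TRI : Prop := ∀ (a b c : ℕ → ℂ), (∀ n, ‖a n‖ ≤ 1) → (∀ n, ‖b n‖ ≤ 1) → (∀ n, ‖c n‖ ≤ 1) →
  ∀ (γ δ : ℕ → ℂ) (N : ℕ → ℕ), Tendsto N atTop atTop →
  Corr a (fun i => 3 * N i) γ → Corr c (fun i => 3 * N i) δ →
  (∀ z : ℂ, ‖z‖ = 1 → AbsentAlong z a (fun i => 3 * N i) ∨
    AbsentAlong (conj z ^ 2) b (fun i => 3 * N i) ∨ AbsentAlong z c (fun i => 3 * N i)) →
  Tendsto (fun i => bavg (N i) (fun m n => a m * b (m + n) * c (m + 2 * n))) atTop (𝓝 0)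

end

end Pool.Agent.V5helper2.NR
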