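import Mathlib
import Pool.Agent.V5helper2.NR.Asm
import Pool.Agent.V5helper2.NR.Stm3

set_option autoImplicit false
open Finset Filter Topology MeasureTheory AddCircle
open scoped ComplexConjugate

namespace Pool.Agent.V5helper2.NR

open Pool.Agent.Helper498.NCR Pool.Agent.V5helper2.CF

noncomputable section

variable {Ω : Type} [MeasurableSpace Ω] {μ : Measure Ω} [IsProbabilityMeasure μ]

theorem control_tri (hCMP : S_CMP) (hORT : S_ORT) (hD : S_TRI) {T S R : Ω → Ω}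
    (hT : MeasurePreserving T μ μ) (hS : MeasurePreserving S μ μ) (hR : MeasurePreserving R μ μ)
    {A : Set Ω} (hA : MeasurableSet A)
    {f : Ω → ℝ} (hf : Measurable f) (h0 : ∀ x, 0 ≤ f x) (h1 : ∀ x, f x ≤ 1)
    (hE : ∀ h : MemLp (fun x => (f x : ℂ)) 2 μ, h.toLp _ ∈ Ec (koop hT))
    (ho : ∀ h : MemLp (fun x => cind A x - (f x : ℂ)) 2 μ, h.toLp _ ∈ (EigSpan (koop hT))ᗮ)
    (A' B' : ℂ) (hA' : ‖A'‖ = 1) (hB' : ‖B'‖ = 1)
    (hres : ∃ Λ : Set ℂ, Λ.Countable ∧ ∀ᵐ x ∂μ, ∀ z : ℂ, ‖z‖ = 1 → z ∉ Λ →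
      Absent z (fun n => cind A (T^[n] x)) ∨ Absent (A' * conj z ^ 2) (fun n => cind A (S^[n] x)) ∨
      Absent (B' * z) (fun n => cind A (R^[n] x)))
    (ε : ℝ) (hε : 0 < ε) :
    ∃ N₀ : ℕ, ∀ N ≥ N₀, ∫ x, ‖bavg N (fun m n =>
        (cind A (T^[m] x) - (f (T^[m] x) : ℂ)) *
        (A' ^ (m + n) * cind A (S^[m + n] x)) *
        (B' ^ (m + 2 * n) * cind A (R^[m + 2 * n] x)))‖ ^ 2 ∂μ ≤ ε := by
  set g : Ω → ℂ := fun x => cind A x - (f x : ℂ) with hg
  have hgm : Measurable g := sub_meas hA hf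
  have hg1 : ∀ x, ‖g x‖ ≤ 1 := sub_bdd A h0 h1
  have hfm : Measurable (fun x => (f x : ℂ)) := Complex.measurable_ofReal.comp hf
  have hf1 : ∀ x, ‖(f x : ℂ)‖ ≤ 1 := fun x => by
    rw [Complex.norm_real, Real.norm_of_nonneg (h0 x)]; exact h1 x
  obtain ⟨Λ₁, hΛ₁, hr⟩ := hres
  obtain ⟨Λ₂, hΛ₂, hc⟩ := hCMP Ω μ T hT (fun x => (f x : ℂ)) hfm hf1 (hE _)
  obtain ⟨en, hen⟩ := ((hΛ₁.union hΛ₂).union (Set.countable_singleton (1 : ℂ))).exists_eq_range
    ⟨1, Or.inr rfl⟩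
  classical
  set l : ℕ → ℂ := fun k => if ‖en k‖ = 1 then en k else 1 with hl
  have hl1 : ∀ k, ‖l k‖ = 1 := by
    intro k
    simp only [hl]
    split_ifs with h
    · exact h
    · simp
  have E1 : AE0 μ (fun x N => ∀ k, AbsentAlong (l k) (fun n => g (T^[n] x)) N) :=
    AE0.all fun k => hORT Ω μ T hT g hgm hg1 (ho _) (l k) (hl1 k)
  have E2 : AE0 μ (fun x N => ∀ z : ℂ, ‖z‖ = 1 → z ∉ Λ₂ →
      ∀ ε > (0 : ℝ), ∃ H₀ : ℕ, ∀ H ≥ H₀, ∀ᶠ i in atTop,
        ((N i : ℕ) : ℝ)⁻¹ * ∑ n ∈ range (N i),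
          ‖(H : ℂ)⁻¹ * ∑ h ∈ range H, z ^ h * (f (T^[n + h] x) : ℂ)‖ ^ 2 ≤ ε) := hc
  have E3 := AE0.of_ae hr
  obtain ⟨p, E4⟩ := corr_ae0 hT hgm hg1
  obtain ⟨q, E5⟩ := corr_ae0 hR (cind_meas hA) (cind_norm A)
  have E : AE0 μ (fun x N => Corr (fun n => g (T^[n] x)) N (fun k => p k x) ∧
      Corr (fun n => B' ^ n * cind A (R^[n] x)) N (fun k => B' ^ k * q k x) ∧
      ∀ z : ℂ, ‖z‖ = 1 → AbsentAlong z (fun n => g (T^[n] x)) N ∨
        AbsentAlong (conj z ^ 2) (fun n => A' ^ n * cind A (S^[n] x)) N ∨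
        AbsentAlong z (fun n => B' ^ n * cind A (R^[n] x)) N) := by
    refine (E1.and (E2.and (E3.and (E4.and E5)))).mono ?_
    rintro x N hN ⟨q1, q2, q3, q4, q5⟩
    refine ⟨q4, corr_twist hB' q5, fun z hz => ?_⟩
    by_cases hz1 : z ∈ Λ₁ ∪ Λ₂
    · left
      have : z ∈ Set.range en := by rw [← hen]; exact Or.inl hz1
      obtain ⟨k, rfl⟩ := this
      have h4 : l k = en k := by simp only [hl]; rw [if_pos hz]
      have h5 := q1 k
      rwa [h4] at h5
    · have hz2 : z ∉ Λ₁ := fun h => hz1 (Or.inl h)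
      have hz3 : z ∉ Λ₂ := fun h => hz1 (Or.inr h)
      rcases q3 z hz hz2 with h | h | h
      · left
        exact absent_sub h hN (q2 z hz hz3)
      · right; left
        exact absentAlong_twist hA' (absent_along h hN)
      · right; right
        exact absentAlong_twist hB' (absent_along h hN)
  set G : ℕ → Ω → ℂ := fun N x => bavg N (fun m n =>
        (cind A (T^[m] x) - (f (T^[m] x) : ℂ)) *
        (A' ^ (m + n) * cind A (S^[m + n] x)) *
        (B' ^ (m + 2 * n) * cind A (R^[m + 2 * n] x))) with hG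
  have hG1 : ∀ N x, ‖G N x‖ ≤ 1 := by
    intro N x
    refine norm_bavg_le_one N _ fun m n => ?_
    rw [norm_mul, norm_mul]
    have := mul_le_mul (mul_le_mul (hg1 (T^[m] x)) (twist_bdd S A A' hA' (m + n) x)
      (norm_nonneg _) zero_le_one) (twist_bdd R A B' hB' (m + 2 * n) x) (norm_nonneg _)
      (by norm_num)
    simpa using this
  have hGm : ∀ N, Measurable (G N) := by
    intro N
    refine bavg_meas N _ fun m n => ?_
    exact ((hgm.comp (hT.measurable.iterate m)).mul (twist_meas hS hA A' (m + n))).mul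
      (twist_meas hR hA B' (m + 2 * n))
  by_contra hcon
  push Not at hcon
  choose b hb1 hb2 using hcon
  have hbt : Tendsto b atTop atTop := tendsto_atTop_mono hb1 tendsto_id
  have hbt3 : Tendsto (fun i => 3 * b i) atTop atTop :=
    tendsto_atTop_mono (fun i => by omega) hbt
  obtain ⟨J, hJ1, hJ2⟩ := E.extract (fun i => 3 * b i) hbt3
  have hJt : Tendsto J atTop atTop := tendsto_atTop_mono hJ1 tendsto_id
  have hlim : ∀ᵐ x ∂μ, Tendsto (fun i => G (b (J i)) x) atTop (𝓝 0) := by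
    filter_upwards [hJ2] with x hx
    obtain ⟨k1, k2, k3⟩ := hx
    exact hD (fun n => g (T^[n] x)) (fun n => A' ^ n * cind A (S^[n] x))
      (fun n => B' ^ n * cind A (R^[n] x)) (fun n => hg1 _) (fun n => twist_bdd S A A' hA' n x)
      (fun n => twist_bdd R A B' hB' n x) _ _ (fun i => b (J i)) (hbt.comp hJt) k1 k2 k3
  have hconv : Tendsto (fun i => ∫ x, ‖G (b (J i)) x‖ ^ 2 ∂μ) atTop (𝓝 (∫ x, (0 : ℝ) ∂μ)) := by
    refine tendsto_integral_of_dominated_convergence (fun _ => (1 : ℝ)) (fun i => ?_)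
      (integrable_const _) (fun i => Eventually.of_forall fun x => ?_) ?_
    · exact ((hGm _).norm.pow_const 2).aestronglyMeasurable
    · rw [Real.norm_of_nonneg (by positivity)]
      exact pow_le_one₀ (norm_nonneg _) (hG1 _ _)
    · filter_upwards [hlim] with x hx
      simpa using hx.norm.pow 2
  rw [integral_zero] at hconv
  obtain ⟨i, hi⟩ := (hconv.eventually (gt_mem_nhds hε)).exists
  exact absurd (hb2 (J i)) (not_lt.2 hi.le)

end

end Pool.Agent.V5helper2.NR
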