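import Mathlib
import Pool.Agent.V5helper2.NR.Stm2

set_option autoImplicit false
open Finset Filter Topology MeasureTheory AddCircle
open scoped ComplexConjugate

namespace Pool.Agent.V5helper2.NR

open Pool.Agent.Helper498.NCR Pool.Agent.V5helper2.CF

noncomputable section

theorem t_DEG : S_DEG := by
  intro φ ψ χ hinj hφ3 hψ3 a c v ha hc hv J N hJ hN α β p q k B hB hφ hψ hχ
  have hN0 : (0 : ℝ) < N := by exact_mod_cast hN
  have hJ0 : (0 : ℝ) < J := by exact_mod_cast hJ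
  set Φ : ℕ → ℕ → ℂ := fun m n => a (φ m n) * c (ψ m n) * v (χ m n) with hΦ
  have hΦ1 : ∀ m n, ‖Φ m n‖ ≤ 1 := by
    intro m n
    simp only [hΦ, norm_mul]
    have := mul_le_mul (mul_le_mul (ha (φ m n)) (hc (ψ m n)) (norm_nonneg _) zero_le_one)
      (hv (χ m n)) (norm_nonneg _) (by norm_num)
    simpa using this
  set Y : ℕ → ℕ → ℂ := fun x y => (J : ℂ)⁻¹ * ∑ j ∈ range J, a (x + p j) * c (y + q j) with hY
  have s1 := avg_shift Φ hΦ1 N J B hN hJ α β hB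
  have e1 : (fun m n => (J : ℂ)⁻¹ * ∑ j ∈ range J, Φ (m + α j) (n + β j))
      = fun m n => v (χ m n + k) * Y (φ m n) (ψ m n) := by
    funext m n
    simp only [hΦ, hY]
    rw [mul_left_comm, Finset.mul_sum (range J) _ (v _)]
    congr 1
    refine Finset.sum_congr rfl fun j hj => ?_
    rw [hφ j (mem_range.1 hj), hψ j (mem_range.1 hj), hχ j (mem_range.1 hj)]
    ring
  rw [e1] at s1
  have s2 : ‖bavg N (fun m n => v (χ m n + k) * Y (φ m n) (ψ m n))‖ ≤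
      ((N : ℝ) ^ 2)⁻¹ * ∑ m ∈ range N, ∑ n ∈ range N, ‖Y (φ m n) (ψ m n)‖ := by
    refine (norm_bavg_le _ _).trans ?_
    gcongr with m _ n _
    rw [norm_mul]
    exact mul_le_of_le_one_left (norm_nonneg _) (hv _)
  have s3 : ‖bavg N (fun m n => v (χ m n + k) * Y (φ m n) (ψ m n))‖ ^ 2 ≤
      ((N : ℝ) ^ 2)⁻¹ * ∑ m ∈ range N, ∑ n ∈ range N, ‖Y (φ m n) (ψ m n)‖ ^ 2 :=
    (pow_le_pow_left₀ (norm_nonneg _) s2 2).trans (sq_avg_le N _)
  -- extend the range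
  have s4 : ∑ m ∈ range N, ∑ n ∈ range N, ‖Y (φ m n) (ψ m n)‖ ^ 2 ≤
      ∑ x ∈ range (3 * N), ∑ y ∈ range (3 * N), ‖Y x y‖ ^ 2 := by
    rw [← Finset.sum_product' (range N) (range N) (fun m n => ‖Y (φ m n) (ψ m n)‖ ^ 2),
      ← Finset.sum_product' (range (3 * N)) (range (3 * N)) (fun x y => ‖Y x y‖ ^ 2)]
    have hi : Set.InjOn (fun z : ℕ × ℕ => (φ z.1 z.2, ψ z.1 z.2))
        ((range N ×ˢ range N : Finset (ℕ × ℕ)) : Set (ℕ × ℕ)) := by
      intro z _ w _ h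
      simp only [Prod.mk.injEq] at h
      obtain ⟨h1, h2⟩ := hinj _ _ _ _ h.1 h.2
      exact Prod.ext h1 h2
    rw [← Finset.sum_image (f := fun z : ℕ × ℕ => ‖Y z.1 z.2‖ ^ 2)
      (g := fun z : ℕ × ℕ => (φ z.1 z.2, ψ z.1 z.2)) hi]
    refine Finset.sum_le_sum_of_subset_of_nonneg ?_ fun _ _ _ => by positivity
    intro z hz
    simp only [mem_image, mem_product, mem_range] at hz ⊢
    obtain ⟨w, ⟨hw1, hw2⟩, rfl⟩ := hz
    exact ⟨hφ3 _ _ _ hw1 hw2, hψ3 _ _ _ hw1 hw2⟩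
  -- expand the square
  have s5 : ((((N : ℝ) ^ 2)⁻¹ * ∑ x ∈ range (3 * N), ∑ y ∈ range (3 * N), ‖Y x y‖ ^ 2 : ℝ) : ℂ) =
      ((J : ℂ) ^ 2)⁻¹ * ∑ j ∈ range J, ∑ j' ∈ range J,
      ((N : ℂ)⁻¹ * ∑ k ∈ range (3 * N), a (k + p j) * conj (a (k + p j'))) *
      ((N : ℂ)⁻¹ * ∑ l ∈ range (3 * N), c (l + q j) * conj (c (l + q j'))) := by
    have hx : ∀ x y, ((‖Y x y‖ ^ 2 : ℝ) : ℂ) =
        ((J : ℂ) ^ 2)⁻¹ * ∑ j ∈ range J, ∑ j' ∈ range J,
          (a (x + p j) * conj (a (x + p j'))) * (c (y + q j) * conj (c (y + q j'))) := by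
      intro x y
      have : ((‖Y x y‖ ^ 2 : ℝ) : ℂ) = Y x y * (starRingEnd ℂ) (Y x y) := by
        rw [Complex.mul_conj, Complex.normSq_eq_norm_sq]
      rw [this]
      simp only [hY, map_mul, map_inv₀, map_sum, Complex.conj_natCast]
      rw [mul_mul_mul_comm, Finset.sum_mul_sum]
      congr 1
      · rw [sq, mul_inv]
      · refine Finset.sum_congr rfl fun j _ => Finset.sum_congr rfl fun j' _ => ?_
        ring
    push_cast
    simp_rw [← Complex.ofReal_pow, hx, ← Finset.mul_sum]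
    rw [mul_left_comm]
    congr 1
    rw [Finset.mul_sum]
    have e3 : ∑ x ∈ range (3 * N), ∑ y ∈ range (3 * N), ∑ j ∈ range J, ∑ j' ∈ range J,
          (a (x + p j) * conj (a (x + p j'))) * (c (y + q j) * conj (c (y + q j'))) =
        ∑ j ∈ range J, ∑ j' ∈ range J, ∑ x ∈ range (3 * N), ∑ y ∈ range (3 * N),
          (a (x + p j) * conj (a (x + p j'))) * (c (y + q j) * conj (c (y + q j'))) := by
      calc _ = ∑ x ∈ range (3 * N), ∑ j ∈ range J, ∑ y ∈ range (3 * N), ∑ j' ∈ range J,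
            (a (x + p j) * conj (a (x + p j'))) * (c (y + q j) * conj (c (y + q j'))) :=
            Finset.sum_congr rfl fun m _ => Finset.sum_comm
        _ = ∑ j ∈ range J, ∑ x ∈ range (3 * N), ∑ y ∈ range (3 * N), ∑ j' ∈ range J,
            (a (x + p j) * conj (a (x + p j'))) * (c (y + q j) * conj (c (y + q j'))) :=
            Finset.sum_comm
        _ = ∑ j ∈ range J, ∑ x ∈ range (3 * N), ∑ j' ∈ range J, ∑ y ∈ range (3 * N),
            (a (x + p j) * conj (a (x + p j'))) * (c (y + q j) * conj (c (y + q j'))) :=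
            Finset.sum_congr rfl fun h _ => Finset.sum_congr rfl fun m _ => Finset.sum_comm
        _ = _ := Finset.sum_congr rfl fun h _ => Finset.sum_comm
    rw [← Finset.mul_sum, e3, Finset.mul_sum]
    refine Finset.sum_congr rfl fun j _ => ?_
    rw [Finset.mul_sum]
    refine Finset.sum_congr rfl fun j' _ => ?_
    rw [mul_mul_mul_comm, Finset.sum_mul_sum, sq, mul_inv]
  have s6 : ‖bavg N (fun m n => v (χ m n + k) * Y (φ m n) (ψ m n))‖ ^ 2 ≤
      ‖((J : ℂ) ^ 2)⁻¹ * ∑ j ∈ range J, ∑ j' ∈ range J,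
      ((N : ℂ)⁻¹ * ∑ k ∈ range (3 * N), a (k + p j) * conj (a (k + p j'))) *
      ((N : ℂ)⁻¹ * ∑ l ∈ range (3 * N), c (l + q j) * conj (c (l + q j')))‖ := by
    rw [← s5, Complex.norm_real, Real.norm_of_nonneg (by positivity)]
    exact s3.trans (by gcongr)
  have s7 : ‖bavg N Φ‖ ≤ 2 * B / N + ‖bavg N (fun m n => v (χ m n + k) * Y (φ m n) (ψ m n))‖ := by
    have := norm_add_le (bavg N Φ - bavg N (fun m n => v (χ m n + k) * Y (φ m n) (ψ m n)))
      (bavg N (fun m n => v (χ m n + k) * Y (φ m n) (ψ m n)))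
    rw [sub_add_cancel] at this
    linarith
  have s8 : ‖bavg N Φ‖ ^ 2 ≤ (2 * B / N +
      ‖bavg N (fun m n => v (χ m n + k) * Y (φ m n) (ψ m n))‖) ^ 2 :=
    pow_le_pow_left₀ (norm_nonneg _) s7 2
  refine s8.trans ?_
  nlinarith [sq_nonneg (2 * B / (N : ℝ) -
    ‖bavg N (fun m n => v (χ m n + k) * Y (φ m n) (ψ m n))‖)]

end

end Pool.Agent.V5helper2.NR
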