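import Mathlib
import Pool.Agent.V5helper2.NR.Stm

set_option autoImplicit false
open Finset Filter Topology MeasureTheory AddCircle
open scoped ComplexConjugate BoundedContinuousFunction

namespace Pool.Agent.V5helper2.NR

open Pool.Agent.Helper498.NCR Pool.Agent.V5helper2.CF

noncomputable section

theorem t_RHO : S_RHO := by
  intro a ha γ J hJ hγ
  set 𝒰 : Ultrafilter ℕ := Ultrafilter.of atTop with h𝒰
  have h𝒰le : (𝒰 : Filter ℕ) ≤ atTop := Ultrafilter.of_le _
  obtain ⟨ρ, -, hρ⟩ : ∃ ρ : FiniteMeasure Ci, ρ ∈ {μ : FiniteMeasure Ci | μ.mass ≤ 1} ∧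
      Tendsto (fun i => rho a ha (J i)) 𝒰 (𝓝 ρ) := by
    have hc := isCompact_setOfPred_finiteMeasure_le_of_compactSpace Ci 1
    have := hc.ultrafilter_le_nhds (𝒰.map fun i => rho a ha (J i)) (by
      rw [le_principal_iff]
      refine Filter.univ_mem' (f := (𝒰 : Filter ℕ)) fun i => ?_
      change (rho a ha (J i)).mass ≤ 1
      rw [← ENNReal.coe_le_coe, FiniteMeasure.ennreal_mass]
      exact rho_univ a ha (J i))
    obtain ⟨ρ, h1, h2⟩ := this
    exact ⟨ρ, h1, h2⟩
  have hmomlim : ∀ k : ℤ, Tendsto (fun i => mom a (J i) k) 𝒰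
      (𝓝 (∫ t, fourier k t ∂(ρ : Measure Ci))) := by
    intro k
    have h1 := (FiniteMeasure.tendsto_iff_forall_integral_rclike_tendsto ℂ).1 hρ
      (BoundedContinuousFunction.mkOfCompact (fourier k))
    refine h1.congr fun i => ?_
    have h2 : ((rho a ha (J i) : FiniteMeasure Ci) : Measure Ci) = rhoM a (J i) := rfl
    rw [h2]
    simp only [BoundedContinuousFunction.mkOfCompact_apply]
    rw [int_rho, int_dens]
  have hnat : ∀ k : ℕ, ∫ t, fourier (k : ℤ) t ∂(ρ : Measure Ci) = γ k := by
    intro k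
    refine tendsto_nhds_unique (hmomlim k) ?_
    have h1 : Tendsto (fun i => mom a (J i) k - ((J i : ℕ) : ℂ)⁻¹ *
        ∑ j ∈ range (J i), a (j + k) * conj (a j)) atTop (𝓝 0) := by
      refine squeeze_zero_norm (fun i => mom_close a ha (J i) k) ?_
      have h2 : Tendsto (fun i => ((J i : ℕ) : ℝ)⁻¹) atTop (𝓝 0) :=
        tendsto_inv_atTop_zero.comp (tendsto_natCast_atTop_atTop.comp hJ)
      simpa using h2.mul_const (k : ℝ)
    have h3 := h1.add (hγ k)
    simp only [sub_add_cancel, zero_add] at h3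
    exact h3.mono_left h𝒰le
  refine ⟨(ρ : Measure Ci), inferInstance, ?_⟩
  intro n m
  unfold Gam
  split_ifs with h
  · rw [← hnat, ← integral_conj]
    refine integral_congr_ae (Eventually.of_forall fun t => ?_)
    simp only
    rw [← fourier_neg]
    congr 2
    push_cast [h]; ring
  · rw [Complex.conj_conj, ← hnat]
    refine integral_congr_ae (Eventually.of_forall fun t => ?_)
    have e : (((m - n : ℕ)) : ℤ) = (m : ℤ) - n := by push_cast [(not_le.1 h).le]; ring
    simp only [e]

end

end Pool.Agent.V5helper2.NR
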