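import Mathlib
import Pool.Agent.V5helper2.NR.Gen
import Pool.Agent.V5helper2.NR.Stm3

set_option autoImplicit false
open Finset Filter Topology MeasureTheory AddCircle
open scoped ComplexConjugate

namespace Pool.Agent.V5helper2.NR

open Pool.Agent.Helper498.NCR Pool.Agent.V5helper2.CF Pool.Agent.V5helper91.NR

noncomputable section

lemma norm_loc_le (t : Ci) (H : ℕ) (a : ℕ → ℂ) (ha : ∀ n, ‖a n‖ ≤ 1) (n : ℕ) :
    ‖loc t H a n‖ ≤ 1 := by
  unfold loc
  rw [norm_mul, norm_inv, Complex.norm_natCast]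
  rcases Nat.eq_zero_or_pos H with h | h
  · subst h; simp
  have hH0 : (0 : ℝ) < H := by exact_mod_cast h
  rw [inv_mul_le_iff₀ hH0, mul_one]
  refine (norm_sum_le _ _).trans ?_
  calc ∑ h ∈ range H, ‖(fourier (-1) t : ℂ) ^ h * a (n + h)‖ ≤ ∑ h ∈ range H, (1 : ℝ) := by
        refine Finset.sum_le_sum fun j _ => ?_
        rw [norm_mul, norm_pow, fourier_pt_norm, one_pow, one_mul]; exact ha _
    _ = H := by simp

lemma norm_rem_le (F : Finset Ci) (H : ℕ) (a : ℕ → ℂ) (ha : ∀ n, ‖a n‖ ≤ 1) (n : ℕ) :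
    ‖rem F H a n‖ ≤ 1 + F.card := by
  unfold rem
  refine (norm_sub_le _ _).trans (add_le_add (ha n) ?_)
  refine (norm_sum_le _ _).trans ?_
  calc ∑ t ∈ F, ‖loc t H a n‖ ≤ ∑ t ∈ F, (1 : ℝ) :=
        Finset.sum_le_sum fun t _ => norm_loc_le t H a ha n
    _ = F.card := by simp

lemma wgt_le (F : Finset Ci) (H : ℕ) (s : Ci) : wgt F H s ≤ (1 + F.card) ^ 2 := by
  unfold wgt
  refine pow_le_pow_left₀ (norm_nonneg _) ?_ 2
  refine (norm_sub_le _ _).trans (add_le_add (by simp) ?_)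
  refine (norm_sum_le _ _).trans ?_
  calc ∑ t ∈ F, ‖(H : ℂ)⁻¹ * ∑ h ∈ range H, (fourier (-1) t : ℂ) ^ h * fourier (h : ℤ) s‖
      ≤ ∑ t ∈ F, (1 : ℝ) := by
        refine Finset.sum_le_sum fun t _ => ?_
        have := norm_loc_le t H (fun h => fourier (h : ℤ) s)
          (fun n => (fourier_pt_norm _ _).le) 0
        unfold loc at this
        simpa using this
    _ = F.card := by simp

lemma fin_wgt (ρ : Measure Ci) [IsFiniteMeasure ρ] (F : Finset Ci) (H : ℕ) :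
    IsFiniteMeasure (ρ.withDensity fun s => ENNReal.ofReal (wgt F H s)) := by
  refine isFiniteMeasure_withDensity ?_
  refine ne_top_of_le_ne_top ?_ (lintegral_mono (g := fun _ =>
    ENNReal.ofReal ((1 + F.card : ℝ) ^ 2)) fun s => ENNReal.ofReal_le_ofReal (wgt_le F H s))
  rw [lintegral_const]
  exact ENNReal.mul_ne_top ENNReal.ofReal_ne_top (measure_ne_top _ _)

theorem t_TRI (h1 : S_RHO) (h2 : S_ATM) (h3 : S_SPC) (h4 : S_DIA) (h5 : S_QDT) (h6 : S_SLW) :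
    S_TRI := by
  intro a b c ha hb hc γ δ N hN hγ hδ habs
  have hM := three_mul_tendsto hN
  obtain ⟨ρ, hρf, hρ⟩ := h1 a ha γ _ hM hγ
  obtain ⟨σ, hσf, hσ⟩ := h1 c hc δ _ hM hδ
  rw [tendsto_zero_iff_norm_tendsto_zero]
  refine tendsto_order.2 ⟨fun b hb => Eventually.of_forall fun i =>
      lt_of_lt_of_le hb (norm_nonneg _), fun ε hε => ?_⟩
  obtain ⟨F, hF, H₀, hH₀⟩ := h4 ρ σ hρf hσf (ε ^ 2 / (18 * 32)) (by positivity)
  set ε₂ : ℝ := ε / (16 * (F.card + 1)) with hε₂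
  have hε₂0 : 0 < ε₂ := by positivity
  have hJex : ∀ t : Ci, ∃ J : ℕ, 1 ≤ J ∧ (t ∈ F → ∀ᶠ i in atTop,
      ((3 * N i : ℕ) : ℝ)⁻¹ * ∑ n ∈ range (3 * N i),
        ‖(J : ℂ)⁻¹ * ∑ h ∈ range J, (fourier 2 t) ^ h * b (n + h)‖ ^ 2 ≤ ε₂ ^ 2) := by
    intro t
    by_cases ht : t ∈ F
    · have h7 : AbsentAlong (fourier 2 t) b (fun i => 3 * N i) := by
        rcases habs (fourier (-1) t) (fourier_pt_norm _ t) with h | h | h
        · exact absurd (h2 a ha γ _ hM hγ ρ hρf hρ t h) (hF t ht).1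
        · have e : (conj (fourier (-1) t : ℂ)) ^ 2 = fourier 2 t := by
            rw [← fourier_neg, neg_neg, sq, ← fourier_add]; norm_num
          rwa [e] at h
        · exact absurd (h2 c hc δ _ hM hδ σ hσf hσ t h) (hF t ht).2
      obtain ⟨J, hJ1, hJ⟩ := h7 (ε₂ ^ 2) (by positivity)
      exact ⟨J, hJ1, fun _ => hJ⟩
    · exact ⟨1, le_rfl, fun h => absurd h ht⟩
  choose J hJ1 hJ using hJex
  -- choice of H
  obtain ⟨H, hH1, hHH, hHJ⟩ : ∃ H : ℕ, 1 ≤ H ∧ H₀ ≤ H ∧ ∀ t ∈ F, 4 * (J t : ℝ) / H ≤ ε₂ := by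
    obtain ⟨K, hK⟩ := exists_nat_ge (4 * ((F.sup J : ℕ) : ℝ) / ε₂)
    refine ⟨max (max H₀ K) 1, le_max_right _ _, le_trans (le_max_left _ _) (le_max_left _ _),
      fun t ht => ?_⟩
    have hH0 : (0 : ℝ) < ((max (max H₀ K) 1 : ℕ) : ℝ) := by
      exact_mod_cast lt_of_lt_of_le zero_lt_one (le_max_right _ _)
    have hKH : (K : ℝ) ≤ ((max (max H₀ K) 1 : ℕ) : ℝ) := by
      exact_mod_cast le_trans (le_max_right H₀ K) (le_max_left _ _)
    have hJs : (J t : ℝ) ≤ ((F.sup J : ℕ) : ℝ) := by exact_mod_cast Finset.le_sup ht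
    rw [div_le_iff₀ hH0]
    rw [div_le_iff₀ hε₂0] at hK
    nlinarith
  obtain ⟨γ', hγ', hρ'⟩ := h3 a ha γ _ hM hγ ρ hρf hρ F H hH1
  have hfin := fin_wgt ρ F H
  have hmain := h5 (rem F H a) b c (1 + F.card) (by
    have : (0 : ℝ) ≤ F.card := by positivity
    linarith) (norm_rem_le F H a ha) hb hc γ' δ N hN hγ' hδ _ σ hfin hσf hρ' hσ
    (ε ^ 2 / 32) (by positivity)
  have hdm := hH₀ H hHH
  -- the slow parts
  have hslow : ∀ t ∈ F, ∀ᶠ i in atTop,
      ‖bavg (N i) (fun m n => loc t H a m * b (m + n) * c (m + 2 * n))‖ ≤ 5 * ε₂ := by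
    intro t ht
    have hlim : Tendsto (fun i => 4 * (J t : ℝ) / (N i : ℝ)) atTop (𝓝 0) :=
      Tendsto.div_atTop tendsto_const_nhds (tendsto_natCast_atTop_atTop.comp hN)
    filter_upwards [hJ t ht, hlim.eventually (gt_mem_nhds hε₂0), hN.eventually_ge_atTop 1,
      hN.eventually_ge_atTop (J t)] with i q1 q2 q3 q4
    refine (h6 a b c ha hb hc t H (J t) (N i) hH1 (hJ1 t) q3 q4).trans ?_
    have q5 : Real.sqrt (((3 * N i : ℕ) : ℝ)⁻¹ * ∑ k ∈ range (3 * N i),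
      ‖((J t : ℕ) : ℂ)⁻¹ * ∑ j ∈ range (J t), (fourier 2 t) ^ j * b (k + j)‖ ^ 2) ≤ ε₂ := by
      rw [Real.sqrt_le_left hε₂0.le]
      exact q1
    have q6 := hHJ t ht
    linarith
  have hslow' : ∀ᶠ i in atTop, ∀ t ∈ F,
      ‖bavg (N i) (fun m n => loc t H a m * b (m + n) * c (m + 2 * n))‖ ≤ 5 * ε₂ := by
    rw [Filter.eventually_all_finset]
    exact hslow
  filter_upwards [hmain, hslow'] with i q1 q2
  have e1 : bavg (N i) (fun m n => a m * b (m + n) * c (m + 2 * n)) =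
      bavg (N i) (fun m n => rem F H a m * b (m + n) * c (m + 2 * n)) +
      ∑ t ∈ F, bavg (N i) (fun m n => loc t H a m * b (m + n) * c (m + 2 * n)) := by
    rw [← bavg_sum, ← bavg_add]
    congr 1
    funext m n
    simp only [rem, ← Finset.sum_mul]
    ring
  have e2 : ‖bavg (N i) (fun m n => rem F H a m * b (m + n) * c (m + 2 * n))‖ ≤ ε / 4 := by
    refine (pow_le_pow_iff_left₀ (norm_nonneg _) (by positivity) two_ne_zero).1 ?_
    calc _ ≤ _ := q1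
      _ ≤ 18 * (ε ^ 2 / (18 * 32)) + ε ^ 2 / 32 := by gcongr
      _ = (ε / 4) ^ 2 := by ring
  have e3 : ‖∑ t ∈ F, bavg (N i) (fun m n => loc t H a m * b (m + n) * c (m + 2 * n))‖ ≤
      5 * ε / 16 := by
    refine (norm_sum_le _ _).trans ((Finset.sum_le_sum q2).trans ?_)
    rw [Finset.sum_const, nsmul_eq_mul, hε₂]
    have hc0 : (0 : ℝ) ≤ F.card := by positivity
    rw [show (F.card : ℝ) * (5 * (ε / (16 * (F.card + 1)))) =
      (5 * ε / 16) * (F.card / (F.card + 1)) by field_simp]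
    refine mul_le_of_le_one_right (by positivity) ?_
    rw [div_le_one (by positivity)]; linarith
  rw [e1]
  refine lt_of_le_of_lt (norm_add_le _ _) ?_
  linarith

end

end Pool.Agent.V5helper2.NR
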