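import Mathlib
import Pool.Agent.V5helper2.NR.TRI

set_option autoImplicit false
open Finset Filter Topology MeasureTheory AddCircle
open scoped ComplexConjugate

namespace Pool.Agent.V5helper2.NR

open Pool.Agent.Helper498.NCR Pool.Agent.V5helper2.CF

noncomputable section

lemma loc_shift (t : Ci) (H : ℕ) (a : ℕ → ℂ) (ha : ∀ n, ‖a n‖ ≤ 1) (m i : ℕ) :
    ‖loc t H a (m + i) - (fourier 1 t) ^ i * loc t H a m‖ ≤ 2 * i / H := by
  set u : ℕ → ℂ := fun k => (fourier (-1) t) ^ k * a (m + k) with hu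
  have hu1 : ∀ k, ‖u k‖ ≤ 1 := by
    intro k
    simp only [hu]
    rw [norm_mul, norm_pow, fourier_pt_norm, one_pow, one_mul]; exact ha _
  have hf : (fourier 1 t : ℂ) * fourier (-1) t = 1 := by
    rw [← fourier_add]; simp
  have e1 : loc t H a (m + i) = (fourier 1 t) ^ i * ((H : ℂ)⁻¹ * ∑ h ∈ range H, u (h + i)) := by
    unfold loc
    rw [mul_left_comm, Finset.mul_sum (range H) _ ((fourier 1 t : ℂ) ^ i)]
    congr 1
    refine Finset.sum_congr rfl fun h _ => ?_
    simp only [hu]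
    have e2 : (fourier 1 t : ℂ) ^ i * ((fourier (-1) t : ℂ) ^ (h + i) * a (m + (h + i))) =
        ((fourier 1 t : ℂ) * fourier (-1) t) ^ i * ((fourier (-1) t : ℂ) ^ h * a (m + (h + i))) := by
      rw [mul_pow, pow_add]; ring
    rw [e2, hf, one_pow, one_mul]
    congr 2
    ring
  have e3 : (fourier 1 t : ℂ) ^ i * loc t H a m =
      (fourier 1 t) ^ i * ((H : ℂ)⁻¹ * ∑ h ∈ range H, u h) := rfl
  rw [e1, e3, ← mul_sub, ← mul_sub, norm_mul, norm_mul, norm_pow, fourier_pt_norm, one_pow,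
    one_mul, norm_inv, Complex.norm_natCast, div_eq_inv_mul]
  refine mul_le_mul_of_nonneg_left ?_ (by positivity)
  have h4 := shift_one u 1 hu1 H i
  rw [← norm_neg, neg_sub, mul_one] at h4
  exact h4

theorem t_SLW : S_SLW := by
  intro a b c ha hb hc t H J N hH hJ hN hJN
  have hN0 : (0 : ℝ) < N := by exact_mod_cast hN
  have hJ0 : (0 : ℝ) < J := by exact_mod_cast hJ
  have hH0 : (0 : ℝ) < H := by exact_mod_cast hH
  set L := loc t H a with hL
  have hL1 : ∀ n, ‖L n‖ ≤ 1 := norm_loc_le t H a ha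
  set w : ℂ := fourier 2 t with hw
  have hw2 : w = (fourier 1 t) ^ 2 := by
    rw [hw, sq, ← fourier_add]; norm_num
  set X : ℕ → ℝ := fun k => ‖(J : ℂ)⁻¹ * ∑ j ∈ range J, w ^ j * b (k + j)‖ with hX
  set Φ : ℕ → ℕ → ℂ := fun m n => L m * b (m + n) * c (m + 2 * n) with hΦ
  have hΦ1 : ∀ m n, ‖Φ m n‖ ≤ 1 := by
    intro m n
    simp only [hΦ, norm_mul]
    have := mul_le_mul (mul_le_mul (hL1 m) (hb (m + n)) (norm_nonneg _) zero_le_one)
      (hc (m + 2 * n)) (norm_nonneg _) (by norm_num)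
    simpa using this
  have s1 := avg_shift Φ hΦ1 N J (2 * J) hN hJ (fun j => 2 * j) (fun j => J - j)
    (fun j hj => by omega)
  set Ψ : ℕ → ℕ → ℂ := fun m n => (J : ℂ)⁻¹ * ∑ j ∈ range J, Φ (m + 2 * j) (n + (J - j)) with hΨ
  have hΨ1 : ∀ m n, ‖Ψ m n‖ ≤ X (m + n + J) + 4 * J / H := by
    intro m n
    have e1 : Ψ m n = c (m + 2 * n + 2 * J) * (L m *
        ((J : ℂ)⁻¹ * ∑ j ∈ range J, w ^ j * b (m + n + J + j))) +
        c (m + 2 * n + 2 * J) * ((J : ℂ)⁻¹ * ∑ j ∈ range J,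
          (L (m + 2 * j) - w ^ j * L m) * b (m + n + J + j)) := by
      simp only [hΨ, hΦ]
      rw [← mul_add, mul_left_comm (L m), ← mul_add, Finset.mul_sum (range J) _ (L m),
        ← Finset.sum_add_distrib, mul_left_comm (c _), Finset.mul_sum (range J) _ (c _)]
      congr 1
      refine Finset.sum_congr rfl fun j hj => ?_
      have hj' := mem_range.1 hj
      have q1 : m + 2 * j + (n + (J - j)) = m + n + J + j := by omega
      have q2 : m + 2 * j + 2 * (n + (J - j)) = m + 2 * n + 2 * J := by omega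
      rw [q1, q2]; ring
    rw [e1]
    refine (norm_add_le _ _).trans (add_le_add ?_ ?_)
    · rw [norm_mul, norm_mul]
      calc ‖c (m + 2 * n + 2 * J)‖ * (‖L m‖ * _) ≤ 1 * (1 * X (m + n + J)) := by
            refine mul_le_mul (hc _) (mul_le_mul (hL1 _) le_rfl (norm_nonneg _) zero_le_one)
              (by positivity) zero_le_one
        _ = X (m + n + J) := by ring
    · rw [norm_mul, norm_mul, norm_inv, Complex.norm_natCast]
      have h5 : ‖∑ j ∈ range J, (L (m + 2 * j) - w ^ j * L m) * b (m + n + J + j)‖ ≤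
          J * (4 * J / H) := by
        refine (norm_sum_le _ _).trans ?_
        calc ∑ j ∈ range J, ‖(L (m + 2 * j) - w ^ j * L m) * b (m + n + J + j)‖
            ≤ ∑ j ∈ range J, (4 * J / H : ℝ) := by
              refine Finset.sum_le_sum fun j hj => ?_
              have hj' : (j : ℝ) ≤ J := by exact_mod_cast (mem_range.1 hj).le
              rw [norm_mul]
              have h6 := loc_shift t H a ha m (2 * j)
              have h7 : w ^ j = (fourier 1 t) ^ (2 * j) := by rw [hw2, pow_mul]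
              rw [h7]
              calc _ ≤ (2 * ((2 * j : ℕ) : ℝ) / H) * 1 :=
                    mul_le_mul h6 (hb _) (norm_nonneg _) (by positivity)
                _ = 4 * j / H := by push_cast; ring
                _ ≤ 4 * J / H := by gcongr
          _ = J * (4 * J / H) := by rw [Finset.sum_const, card_range, nsmul_eq_mul]
      calc ‖c (m + 2 * n + 2 * J)‖ * ((J : ℝ)⁻¹ * _) ≤ 1 * ((J : ℝ)⁻¹ * (J * (4 * J / H))) := by
            refine mul_le_mul (hc _) (mul_le_mul_of_nonneg_left h5 (by positivity))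
              (by positivity) zero_le_one
        _ = 4 * J / H := by field_simp
  have s2 : ‖bavg N Ψ‖ ≤ ((N : ℝ) ^ 2)⁻¹ * ∑ m ∈ range N, ∑ n ∈ range N,
      (X (m + n + J) + 4 * J / H) := by
    refine (norm_bavg_le _ _).trans ?_
    refine mul_le_mul_of_nonneg_left ?_ (by positivity)
    exact Finset.sum_le_sum fun m _ => Finset.sum_le_sum fun n _ => hΨ1 m n
  have s3 : ∀ m ∈ range N, ∑ n ∈ range N, X (m + n + J) ≤ ∑ k ∈ range (3 * N), X k := by
    intro m hm
    have hm' := mem_range.1 hm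
    have hi : Set.InjOn (fun n => m + n + J) ((range N : Finset ℕ) : Set ℕ) := by
      intro x _ y _ h
      simp only at h
      omega
    rw [← Finset.sum_image (f := X) (g := fun n => m + n + J) hi]
    refine Finset.sum_le_sum_of_subset_of_nonneg ?_ fun _ _ _ => norm_nonneg _
    intro z hz
    simp only [mem_image, mem_range] at hz ⊢
    obtain ⟨y, hy, rfl⟩ := hz
    omega
  have s4 : ((N : ℝ) ^ 2)⁻¹ * ∑ m ∈ range N, ∑ n ∈ range N, (X (m + n + J) + 4 * J / H) ≤
      (N : ℝ)⁻¹ * ∑ k ∈ range (3 * N), X k + 4 * J / H := by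
    have e1 : ∑ m ∈ range N, ∑ n ∈ range N, (X (m + n + J) + 4 * J / H) =
        ∑ m ∈ range N, ∑ n ∈ range N, X (m + n + J) + N * (N * (4 * J / H : ℝ)) := by
      simp only [Finset.sum_add_distrib, Finset.sum_const, card_range, nsmul_eq_mul]
    have e2 : ∑ m ∈ range N, ∑ n ∈ range N, X (m + n + J) ≤ N * ∑ k ∈ range (3 * N), X k := by
      calc _ ≤ ∑ m ∈ range N, ∑ k ∈ range (3 * N), X k := Finset.sum_le_sum s3
        _ = _ := by rw [Finset.sum_const, card_range, nsmul_eq_mul]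
    rw [e1]
    calc ((N : ℝ) ^ 2)⁻¹ * (∑ m ∈ range N, ∑ n ∈ range N, X (m + n + J) +
          N * (N * (4 * J / H : ℝ)))
        ≤ ((N : ℝ) ^ 2)⁻¹ * (N * ∑ k ∈ range (3 * N), X k + N * (N * (4 * J / H : ℝ))) := by
          gcongr
      _ = _ := by field_simp
  have s5 : (((3 * N : ℕ) : ℝ)⁻¹ * ∑ k ∈ range (3 * N), X k) ^ 2 ≤
      ((3 * N : ℕ) : ℝ)⁻¹ * ∑ k ∈ range (3 * N), (X k) ^ 2 := by
    have h3N : (0 : ℝ) < ((3 * N : ℕ) : ℝ) := by push_cast; positivity
    have := sq_sum_le_card_mul_sum_sq (s := range (3 * N)) (f := X)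
    rw [card_range] at this
    rw [mul_pow]
    calc _ ≤ ((((3 * N : ℕ) : ℝ))⁻¹) ^ 2 * (((3 * N : ℕ) : ℝ) * ∑ k ∈ range (3 * N), (X k) ^ 2) := by
          gcongr
      _ = _ := by field_simp
  have s6 : (N : ℝ)⁻¹ * ∑ k ∈ range (3 * N), X k ≤
      3 * Real.sqrt (((3 * N : ℕ) : ℝ)⁻¹ * ∑ k ∈ range (3 * N), (X k) ^ 2) := by
    have e1 : (N : ℝ)⁻¹ * ∑ k ∈ range (3 * N), X k =
        3 * (((3 * N : ℕ) : ℝ)⁻¹ * ∑ k ∈ range (3 * N), X k) := by
      push_cast; field_simp
    rw [e1]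
    exact mul_le_mul_of_nonneg_left (Real.le_sqrt_of_sq_le s5) (by norm_num)
  have s7 : ‖bavg N Φ‖ ≤ ‖bavg N Φ - bavg N Ψ‖ + ‖bavg N Ψ‖ := by
    have := norm_add_le (bavg N Φ - bavg N Ψ) (bavg N Ψ)
    rwa [sub_add_cancel] at this
  have s8 : 2 * ((2 * J : ℕ) : ℝ) / N = 4 * J / N := by push_cast; ring
  rw [s8] at s1
  linarith [s7, s1, s2, s4, s6]

end

end Pool.Agent.V5helper2.NR
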